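import Pool.Agent.MP_57c4af_pr.Mg.Final

/-! In the lightning model, weak percolation implies strong percolation. -/

namespace Pool.Agent.Results.MP_57c4af_pr.WeakStrong

open Pool.Agent.MP_57c4af_pr

theorem result (ε : ℝ) (hε : ε ∈ Set.Icc (0 : ℝ) 1) :
    0 < law {U | {b | Leads ε U 0 b}.Infinite} →
      0 < law {U | {b | Leads ε U 0 b ∧ Leads ε U b 0}.Infinite} := by
  intro h
  rcases hε.1.eq_or_lt with rfl | h0
  · rw [no_weak_zero] at h
    exact absurd h (lt_irrefl _)
  · simp only [leads_iff] at h ⊢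
    exact strong_of_weak h0 h

end Pool.Agent.Results.MP_57c4af_pr.WeakStrong
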